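import Pool.Agent.H71.CO.Targets

/-!
# The set coded in a copy of a linear order (row AMB)
-/

set_option autoImplicit false

open Set

namespace Pool.Agent.H56.CO

open Pool.Agent.H71.CO

section
variable {L : Type} {s : ℕ → ℕ → L} {lt : ℕ → ℕ → Prop} {I : Type} {li : I → I → Prop}

lemma lin_Ul (h : Lin lt) (hi : Lin li) : Lin (Ul s lt li) := by
  refine ⟨?_, ?_, ?_⟩
  · rintro (a | v)
    · exact h.irr a.1
    · rintro (hv | ⟨-, hv⟩)
      · exact h.irr _ hv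
      · exact hi.irr _ hv
  · rintro (a | v) (b | w) (c | z) h1 h2
    · exact h.tra _ _ _ h1 h2
    · exact h.tra _ _ _ h1 h2
    · exact h.tra _ _ _ h1 h2
    · rcases h2 with h2 | ⟨h2, -⟩
      · exact h.tra _ _ _ h1 h2
      · have h1' : lt a.1 w.1.1 := h1
        rw [h2] at h1'
        exact h1'
    · exact h.tra _ _ _ h1 h2
    · exact Or.inl (h.tra _ _ _ h1 h2)
    · rcases h1 with h1 | ⟨h1, -⟩
      · exact h.tra _ _ _ h1 h2
      · have h2' : lt w.1.1 c.1 := h2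
        rw [← h1] at h2'
        exact h2'
    · rcases h1 with h1 | ⟨h1, h1'⟩
      · rcases h2 with h2 | ⟨h2, h2'⟩
        · exact Or.inl (h.tra _ _ _ h1 h2)
        · exact Or.inl (h2 ▸ h1)
      · rcases h2 with h2 | ⟨h2, h2'⟩
        · exact Or.inl (h1 ▸ h2)
        · exact Or.inr ⟨h1.trans h2, hi.tra _ _ _ h1' h2'⟩
  · rintro (a | v) (b | w) hne
    · exact h.tot a.1 b.1 fun e => hne (congrArg Sum.inl (Subtype.ext e))
    · refine h.tot a.1 w.1.1 fun e => w.1.2 ?_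
      rw [← e]
      exact a.2
    · refine h.tot v.1.1 b.1 fun e => v.1.2 ?_
      rw [e]
      exact b.2
    · by_cases e : v.1 = w.1
      · have e2 : v.2 ≠ w.2 := fun e2 => hne (congrArg Sum.inr (Prod.ext e e2))
        rcases hi.tot _ _ e2 with h1 | h1
        · exact Or.inl (Or.inr ⟨e, h1⟩)
        · exact Or.inr (Or.inr ⟨e.symm, h1⟩)
      · rcases h.tot v.1.1 w.1.1 (fun e' => e (Subtype.ext e')) with h1 | h1
        · exact Or.inl (Or.inl h1)
        · exact Or.inr (Or.inl h1)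

lemma btw_copy (h : Lin lt) (a : {a : ℕ // ¬ (Cls s a).Finite}) (i j : I) (w : UV s I) :
    (Ul s lt li (Sum.inr (a, i)) w ∧ Ul s lt li w (Sum.inr (a, j))) ↔
      ∃ k, w = Sum.inr (a, k) ∧ li i k ∧ li k j := by
  constructor
  · rcases w with b | ⟨b, k⟩
    · rintro ⟨h1, h2⟩
      exact absurd (h.tra a.1 b.1 a.1 h1 h2) (h.irr _)
    · rintro ⟨h1, h2⟩
      rcases h1 with h1 | ⟨h1, h1'⟩
      · rcases h2 with h2 | ⟨h2, -⟩
        · exact absurd (h.tra a.1 b.1 a.1 h1 h2) (h.irr _)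
        · have h2' : b = a := h2
          rw [h2'] at h1
          exact absurd h1 (h.irr _)
      · have e : a = b := h1
        rcases h2 with h2 | ⟨h2, h2'⟩
        · have h2' : lt b.1 a.1 := h2
          rw [e] at h2'
          exact absurd h2' (h.irr _)
        · exact ⟨k, by rw [e], h1', h2'⟩
  · rintro ⟨k, rfl, h1, h2⟩
    exact ⟨Or.inr ⟨rfl, h1⟩, Or.inr ⟨rfl, h2⟩⟩

lemma inj_copy (a : {a : ℕ // ¬ (Cls s a).Finite}) :
    Function.Injective fun k : I => (Sum.inr (a, k) : UV s I) := by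
  intro k k' e
  exact (Prod.ext_iff.1 (Sum.inr.inj e)).2

lemma btw_set (h : Lin lt) (a : {a : ℕ // ¬ (Cls s a).Finite}) (k k' : I) :
    {t | H71.CO.Btw (Ul s lt li) (Sum.inr (a, k)) (Sum.inr (a, k')) t} =
      (fun t : I => (Sum.inr (a, t) : UV s I)) '' {t | H71.CO.Btw li k k' t} := by
  ext t
  constructor
  · rintro (h0 | h0)
    · obtain ⟨m, hm, h1, h2⟩ := (btw_copy h a k k' t).1 h0
      exact ⟨m, Or.inl ⟨h1, h2⟩, hm.symm⟩
    · obtain ⟨m, hm, h1, h2⟩ := (btw_copy h a k' k t).1 h0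
      exact ⟨m, Or.inr ⟨h1, h2⟩, hm.symm⟩
  · rintro ⟨m, h1 | h1, hm⟩
    · exact Or.inl ((btw_copy h a k k' t).2 ⟨m, hm.symm, h1⟩)
    · exact Or.inr ((btw_copy h a k' k t).2 ⟨m, hm.symm, h1⟩)

lemma out_inf (h : Lin lt)
    (hI : ∀ k, {k' | li k k'}.Infinite ∧ {k' | li k' k}.Infinite)
    (a : {a : ℕ // ¬ (Cls s a).Finite}) (k : I) (w : UV s I)
    (hw : ∀ m, w ≠ Sum.inr (a, m)) : {t | H71.CO.Btw (Ul s lt li) (Sum.inr (a, k)) w t}.Infinite := by
  have key : (∀ m, Ul s lt li (Sum.inr (a, m)) w) ∨ ∀ m, Ul s lt li w (Sum.inr (a, m)) := by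
    rcases w with b | ⟨b, m⟩
    · have hne : a.1 ≠ b.1 := by
        intro e
        apply a.2
        rw [e]
        exact b.2
      rcases h.tot _ _ hne with h1 | h1
      · exact Or.inl fun _ => h1
      · exact Or.inr fun _ => h1
    · have hne : a.1 ≠ b.1 := by
        intro e
        apply hw m
        rw [Subtype.ext e]
      rcases h.tot _ _ hne with h1 | h1
      · exact Or.inl fun _ => Or.inl h1
      · exact Or.inr fun _ => Or.inl h1
  rcases key with h1 | h1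
  · refine (((hI k).1.image (inj_copy a).injOn)).mono ?_
    rintro _ ⟨m, hm, rfl⟩
    exact Or.inl ⟨Or.inr ⟨rfl, hm⟩, h1 m⟩
  · refine (((hI k).2.image (inj_copy a).injOn)).mono ?_
    rintro _ ⟨m, hm, rfl⟩
    exact Or.inr ⟨h1 m, Or.inr ⟨rfl, hm⟩⟩

lemma cls_set (h : Lin lt)
    (hI : ∀ k, {k' | li k k'}.Infinite ∧ {k' | li k' k}.Infinite)
    (a : {a : ℕ // ¬ (Cls s a).Finite}) (k : I) :
    {w' | {t | H71.CO.Btw (Ul s lt li) (Sum.inr (a, k)) w' t}.Finite} =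
      (fun t : I => (Sum.inr (a, t) : UV s I)) '' {k' | {t | H71.CO.Btw li k k' t}.Finite} := by
  ext w
  constructor
  · intro hf
    replace hf : {t | H71.CO.Btw (Ul s lt li) (Sum.inr (a, k)) w t}.Finite := hf
    by_cases hw : ∃ m, w = Sum.inr (a, m)
    · obtain ⟨m, rfl⟩ := hw
      rw [btw_set h] at hf
      exact ⟨m, hf.of_finite_image (inj_copy a).injOn, rfl⟩
    · exact absurd hf (out_inf h hI a k w fun m e => hw ⟨m, e⟩)
  · rintro ⟨m, hm, rfl⟩
    change {t | H71.CO.Btw (Ul s lt li) (Sum.inr (a, k)) (Sum.inr (a, m)) t}.Finite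
    rw [btw_set h]
    exact Set.Finite.image _ hm

end

theorem pf_AMB : T_AMB := by
  intro L s lt hs I li hli hI
  refine ⟨lin_Ul hs.lin hli, fun a i j => ?_⟩
  ext n
  constructor
  · rintro ⟨w, h1, h2, h3⟩
    obtain ⟨k, rfl, h4, h5⟩ := (btw_copy hs.lin a i j w).1 ⟨h1, h2⟩
    refine ⟨k, h4, h5, ?_⟩
    rw [← h3, cls_set hs.lin hI, (inj_copy a).encard_image]
  · rintro ⟨k, h4, h5, h3⟩
    obtain ⟨h1, h2⟩ := (btw_copy hs.lin a i j _).2 ⟨k, rfl, h4, h5⟩
    refine ⟨_, h1, h2, ?_⟩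
    rw [← h3, cls_set hs.lin hI, (inj_copy a).encard_image]

end Pool.Agent.H56.CO
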